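import Pool.Agent.Lib_helper34.EclF.FINA

/-!
# The eclipse theorem for all small masses of the third body, with transversal eclipses

Extracted from the blocks IVT and FIN of `Lib_helper34/EclF`.
-/

set_option autoImplicit false

namespace Pool.Agent.EclOwn

open Pool.Agent.Ecl
open Set Complex Filter Topology

theorem exists_collision_all (hI : StatementI) (r : List Ex) :
    ∃ ε₀ : ℝ, 0 < ε₀ ∧ ∀ e : ℝ, 0 < e → e < ε₀ →
      ∃ (θ S : ℝ) (γ : ℝ → E7), 0 < θ ∧ θ < Real.pi / 2 ∧ 0 < S ∧ γ 0 = Xin θ e ∧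
      SolOn VF UU γ S ∧ TPat γ S r ∧ CEnd r.length (γ S) := by
  obtain ⟨θ₁, θ₂, hθ1, hθ12, hθ2, σ, hσ, hσσ⟩ := hI r
  -- uniform mass
  have hcomp : ∃ ε > 0, ∀ θ ∈ Icc θ₁ θ₂, ∀ m : ℝ, |m| < ε →
      (ecIvtT r .lft θ m ∨ ecIvtT r .mid θ m ∨ ecIvtC r θ m) := by
    apply isCompact_Icc.induction_on (p := fun s : Set ℝ => ∃ ε > 0, ∀ θ ∈ s, ∀ m : ℝ, |m| < ε →
      (ecIvtT r .lft θ m ∨ ecIvtT r .mid θ m ∨ ecIvtC r θ m))
    · exact ⟨1, one_pos, fun θ hθ => absurd hθ (notMem_empty _)⟩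
    · rintro s t hst ⟨ε, hε, H⟩
      exact ⟨ε, hε, fun θ hθ => H θ (hst hθ)⟩
    · rintro s t ⟨ε, hε, H⟩ ⟨ε', hε', H'⟩
      refine ⟨min ε ε', lt_min hε hε', fun θ hθ m hm => ?_⟩
      rcases hθ with hθ | hθ
      · exact H θ hθ m (hm.trans_le (min_le_left _ _))
      · exact H' θ hθ m (hm.trans_le (min_le_right _ _))
    · intro θ hθ
      obtain ⟨η, hη, H⟩ := ec_ivt_local r (hθ1.trans_le hθ.1) (hθ.2.trans_lt hθ2) (hσ θ hθ)
      refine ⟨Metric.ball θ η, mem_nhdsWithin_of_mem_nhds (Metric.ball_mem_nhds θ hη), η, hη,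
        fun θ' hθ' m hm => H θ' m ?_ hm⟩
      rwa [Metric.mem_ball, Real.dist_eq] at hθ'
  obtain ⟨ε, hε, Hε⟩ := hcomp
  obtain ⟨η1, hη1, H1⟩ := ec_ivt_sign r hθ1 (hθ12.trans hθ2) (hσ θ₁ ⟨le_refl _, hθ12.le⟩)
  obtain ⟨η2, hη2, H2⟩ := ec_ivt_sign r (hθ1.trans hθ12) hθ2 (hσ θ₂ ⟨hθ12.le, le_refl _⟩)
  have hmin : 0 < min ε (min η1 η2) := lt_min hε (lt_min hη1 hη2)
  refine ⟨min ε (min η1 η2), hmin, ?_⟩
  intro e he0 hee'
  have hee : |e| < min ε (min η1 η2) := by rw [abs_of_pos he0]; exact hee'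
  have heε : |e| < ε := hee.trans_le (min_le_left _ _)
  have heη1 : |e| < η1 := hee.trans_le ((min_le_right _ _).trans (min_le_left _ _))
  have heη2 : |e| < η2 := hee.trans_le ((min_le_right _ _).trans (min_le_right _ _))
  by_contra hcon
  have hnoC : ∀ θ ∈ Icc θ₁ θ₂, ¬ ecIvtC r θ e := by
    rintro θ hθ ⟨S, γ, h3, h4, h5, h6, h7⟩
    exact hcon ⟨θ, S, γ, hθ1.trans_le hθ.1, hθ.2.trans_lt hθ2, h3, h4, h5, h6, h7⟩
  set L : Ex → Set ℝ := fun x => {θ | 0 < θ ∧ θ < Real.pi / 2 ∧ ecIvtT r x θ e} with hL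
  have hopen : ∀ x, IsOpen (L x) := by
    intro x
    rw [Metric.isOpen_iff]
    rintro θ ⟨h1, h2, S, γ, h3, h4, h5, h6, h7⟩
    obtain ⟨η, hη, H⟩ := pat_open h1 h2 he0.le h3 h4 h5 h6 h7
    refine ⟨min η (min θ (Real.pi / 2 - θ)), lt_min hη (lt_min h1 (by linarith)),
      fun θ' hθ' => ?_⟩
    rw [Metric.mem_ball, Real.dist_eq] at hθ'
    have ha := hθ'.trans_le (min_le_left _ _)
    have hb := hθ'.trans_le ((min_le_right _ _).trans (min_le_left _ _))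
    have hc := hθ'.trans_le ((min_le_right _ _).trans (min_le_right _ _))
    rw [abs_lt] at hb hc
    exact ⟨by linarith [hb.1], by linarith [hc.2], H θ' e ha (by simpa using hη)⟩
  have hcover : Icc θ₁ θ₂ ⊆ L .lft ∪ L .mid := by
    intro θ hθ
    have h1 := hθ1.trans_le hθ.1
    have h2 := hθ.2.trans_lt hθ2
    rcases Hε θ hθ e heε with h3 | h3 | h3
    · exact Or.inl ⟨h1, h2, h3⟩
    · exact Or.inr ⟨h1, h2, h3⟩
    · exact absurd h3 (hnoC θ hθ)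
  have hends : (Icc θ₁ θ₂ ∩ L .lft).Nonempty ∧ (Icc θ₁ θ₂ ∩ L .mid).Nonempty := by
    have m1 : θ₁ ∈ Icc θ₁ θ₂ := ⟨le_refl _, hθ12.le⟩
    have m2 : θ₂ ∈ Icc θ₁ θ₂ := ⟨hθ12.le, le_refl _⟩
    rcases mul_neg_iff.mp hσσ with ⟨hp, hn⟩ | ⟨hn, hp⟩
    · exact ⟨⟨θ₁, m1, hθ1, hθ12.trans hθ2, (H1 e heη1).1 hp⟩,
        ⟨θ₂, m2, hθ1.trans hθ12, hθ2, (H2 e heη2).2 hn⟩⟩
    · exact ⟨⟨θ₂, m2, hθ1.trans hθ12, hθ2, (H2 e heη2).1 hp⟩,
        ⟨θ₁, m1, hθ1, hθ12.trans hθ2, (H1 e heη1).2 hn⟩⟩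
  obtain ⟨θ, _, ⟨_, _, S, γ, a1, a2, a3, a4, a5⟩, ⟨_, _, S', γ', b1, b2, b3, b4, b5⟩⟩ :=
    isPreconnected_Icc (L .lft) (L .mid) (hopen _) (hopen _) hcover hends.1 hends.2
  exact pat_disj (a2.trans b2.symm) a1 b1 a3 b3 a4 b4 a5 b5


/-- twice the oriented area of the triangle of the three bodies -/
noncomputable def area2 (q : Fin 3 → ℝ → ℂ) (t : ℝ) : ℝ :=
  ((starRingEnd ℂ) (q 1 t - q 0 t) * (q 2 t - q 0 t)).im

theorem area2_eq {X : E7} (he : 0 ≤ ce X) :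
    ((starRingEnd ℂ) (qq 1 X - qq 0 X) * (qq 2 X - qq 0 X)).im = normSq (cu X) / 2 * (Zt X).im := by
  have h1 : qq 1 X - qq 0 X = cu X := ec_nwa_d10 X
  have h2 : qq 2 X - qq 0 X = yy X + cu X / 2 := ec_nwa_d20 he
  have h3 : (starRingEnd ℂ) (qq 1 X - qq 0 X) * (qq 2 X - qq 0 X) =
      ((normSq (cu X) / 2 : ℝ) : ℂ) * (Zt X + 1) := by
    rw [h1, h2]
    have h4 : (starRingEnd ℂ) (cu X) * cu X = ((normSq (cu X) : ℝ) : ℂ) := by
      rw [mul_comm]; exact Complex.mul_conj _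
    unfold yy Zt
    push_cast
    rw [← h4]
    ring
  rw [h3]
  simp [Complex.add_im]

/-- The theorem in explicit form. -/
theorem own_core (hI : StatementI) (w : List (Fin 3)) :
    ∃ ε₀ : ℝ, 0 < ε₀ ∧ ∀ e : ℝ, 0 < e → e < ε₀ →
      ∃ (T : ℝ) (q v : Fin 3 → ℝ → ℂ), 0 < T ∧
        (∀ t : ℝ, 0 < t → t < T →
          (∀ a b : Fin 3, a ≠ b → q a t ≠ q b t) ∧
          ∀ a : Fin 3, HasDerivAt (q a) (v a t) t ∧
            HasDerivAt (v a) (acc (mm e) (fun b => q b t) a) t) ∧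
        Tendsto (fun t => q 2 t - q 1 t) (𝓝[>] 0) (𝓝 0) ∧
        (∃ b : Fin 3, b ≠ 2 ∧ Tendsto (fun t => q 2 t - q b t) (𝓝[<] T) (𝓝 0)) ∧
        ∃ τ : Fin w.length → ℝ, StrictMono τ ∧
          (∀ i, 0 < τ i ∧ τ i < T) ∧
          (∀ t : ℝ, 0 < t → t < T →
            Collinear ℝ ({q 0 t, q 1 t, q 2 t} : Set ℂ) → ∃ i, τ i = t) ∧
          (∀ i, Collinear ℝ ({q 0 (τ i), q 1 (τ i), q 2 (τ i)} : Set ℂ)) ∧
          (∀ (i : Fin w.length) (b c : Fin 3), b ≠ w.get i → c ≠ w.get i → b ≠ c →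
            Sbtw ℝ (q b (τ i)) (q (w.get i) (τ i)) (q c (τ i))) ∧
          ∀ i, ∃ d : ℝ, d ≠ 0 ∧ HasDerivAt (area2 q) d (τ i) := by
  set r : List Ex := List.ofFn fun i : Fin w.length => code i (w.get i) with hr
  have hlen : r.length = w.length := by rw [hr, List.length_ofFn]
  obtain ⟨ε₀, hε₀, Hall⟩ := exists_collision_all hI r
  refine ⟨ε₀, hε₀, ?_⟩
  intro e he hee
  obtain ⟨θ, S, γ, hθ0, hθ1, hS, h0, hsol, hpat, hend⟩ := Hall e he hee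
  obtain ⟨τ, hτm, hτin, hτall, hτend⟩ := hpat
  -- basic facts along the orbit
  have hce : ∀ s ∈ Icc 0 S, ce (γ s) = e := by
    intro s hs
    rw [sol_ce hsol s hs, h0]; rfl
  have hG : ∀ s ∈ Icc 0 S, Gh (γ s) = 0 := by
    intro s hs
    rw [sol_Gh hsol s hs, h0]; exact Gh_Xin he.le
  have hu : ∀ s ∈ Icc 0 S, cu (γ s) ≠ 0 := fun s hs => (hsol s hs).2
  have hJ : ∀ s ∈ Ioo 0 S, 0 < cJ (γ s) := by
    intro s hs
    apply cJ_pos_of_pat (hu s ⟨hs.1.le, hs.2.le⟩)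
    by_cases hi : (Zt (γ s)).im = 0
    · right
      obtain ⟨i, rfl⟩ := hτall s hs.1 hs.2 hi
      exact ⟨_, _, (hτend i).2.2⟩
    · exact Or.inl hi
  have ht : ∀ s ∈ Icc 0 S, HasDerivAt (fun s => ct (γ s)) (cJ (γ s)) s := fun s hs =>
    (sol_comp hsol hs).2.2.2.2.2.1
  have hmemI : ∀ s ∈ Ioo (0 : ℝ) S, s ∈ Icc (0 : ℝ) S := fun s hs => ⟨hs.1.le, hs.2.le⟩
  obtain ⟨σ, hσ1, hσ2, htm, hσ0, hσS⟩ := time_change hS ht hJ
  have hct0 : ct (γ 0) = 0 := by rw [h0]; rfl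
  simp only [hct0] at hσ1 hσ2 hσ0
  set Ω := ct (γ S) with hΩ
  have hΩ0 : 0 < Ω := by
    have := htm ⟨le_refl _, hS.le⟩ ⟨hS.le, le_refl _⟩ hS
    simp only [hct0] at this
    exact this
  set q : Fin 3 → ℝ → ℂ := fun a t => qq a (γ (σ t)) with hq
  set v : Fin 3 → ℝ → ℂ := fun a t => vv a (γ (σ t)) with hv
  -- first derivative
  have hd1 : ∀ t ∈ Ioo 0 Ω, ∀ a, HasDerivAt (q a) (v a t) t := by
    intro t htt a
    obtain ⟨hs, -, hσd⟩ := hσ1 t htt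
    have hJs := (hJ _ hs).ne'
    have h1 := newton_pos hsol (hmemI _ hs) hJs (by rw [hce _ (hmemI _ hs)]; exact he.le) a
    have h2 := h1.scomp t hσd
    rw [ec_fin_smul hJs] at h2
    exact h2
  have hd2 : ∀ t ∈ Ioo 0 Ω, ∀ a, HasDerivAt (v a) (acc (mm e) (fun b => q b t) a) t := by
    intro t htt a
    obtain ⟨hs, -, hσd⟩ := hσ1 t htt
    have hJs := (hJ _ hs).ne'
    have h1 := newton_acc hsol (hmemI _ hs) hJs (by rw [hce _ (hmemI _ hs)]; exact he.le)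
      (hG _ (hmemI _ hs)) a
    rw [hce _ (hmemI _ hs)] at h1
    have h2 := h1.scomp t hσd
    rw [ec_fin_smul hJs] at h2
    exact h2
  -- limits of the distances at the two ends
  have hcγ0 : ContinuousAt γ 0 := (hsol 0 ⟨le_refl _, hS.le⟩).1.continuousAt
  have hcγS : ContinuousAt γ S := (hsol S ⟨hS.le, le_refl _⟩).1.continuousAt
  have hIoi : ∀ᶠ t in 𝓝[>] (0 : ℝ), t ∈ Ioo 0 Ω := Ioo_mem_nhdsGT hΩ0
  have hIio : ∀ᶠ t in 𝓝[<] Ω, t ∈ Ioo 0 Ω := Ioo_mem_nhdsLT hΩ0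
  have hlim0 : Tendsto (fun t => q 2 t - q 1 t) (𝓝[>] 0) (𝓝 0) := by
    have h1 : Tendsto (fun t => γ (σ t)) (𝓝[>] 0) (𝓝 (γ 0)) := hcγ0.tendsto.comp hσ0
    have h2 : Tendsto (fun t => cu (γ (σ t)) / 2 * (cosh (cw (γ (σ t))) + (-1))) (𝓝[>] 0)
        (𝓝 (cu (γ 0) / 2 * (cosh (cw (γ 0)) + (-1)))) :=
      (ec_fin_cont (X0 := γ 0) (-1)).tendsto.comp h1
    have h3 : cu (γ 0) / 2 * (cosh (cw (γ 0)) + (-1)) = 0 := by
      rw [h0]; simp [Xin, cw, cu]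
    rw [h3] at h2
    refine h2.congr' ?_
    filter_upwards [hIoi] with t htt
    obtain ⟨hs, -, -⟩ := hσ1 t htt
    change _ = qq 2 (γ (σ t)) - qq 1 (γ (σ t))
    rw [ec_fin_sub1 (by rw [hce _ (hmemI _ hs)]; exact he.le)]
    ring
  have hlimS : ∃ b : Fin 3, b ≠ 2 ∧ Tendsto (fun t => q 2 t - q b t) (𝓝[<] Ω) (𝓝 0) := by
    have h1 : Tendsto (fun t => γ (σ t)) (𝓝[<] Ω) (𝓝 (γ S)) := hcγS.tendsto.comp hσS
    unfold CEnd Zt at hend
    rcases neg_one_pow_eq_or ℂ (r.length + 1) with h | h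
    · refine ⟨1, by decide, ?_⟩
      have h2 : Tendsto (fun t => cu (γ (σ t)) / 2 * (cosh (cw (γ (σ t))) + (-1))) (𝓝[<] Ω)
          (𝓝 (cu (γ S) / 2 * (cosh (cw (γ S)) + (-1)))) :=
        (ec_fin_cont (X0 := γ S) (-1)).tendsto.comp h1
      have h3 : cu (γ S) / 2 * (cosh (cw (γ S)) + (-1)) = 0 := by
        rw [hend, h]; ring
      rw [h3] at h2
      refine h2.congr' ?_
      filter_upwards [hIio] with t htt
      obtain ⟨hs, -, -⟩ := hσ1 t htt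
      change _ = qq 2 (γ (σ t)) - qq 1 (γ (σ t))
      rw [ec_fin_sub1 (by rw [hce _ (hmemI _ hs)]; exact he.le)]
      ring
    · refine ⟨0, by decide, ?_⟩
      have h2 : Tendsto (fun t => cu (γ (σ t)) / 2 * (cosh (cw (γ (σ t))) + 1)) (𝓝[<] Ω)
          (𝓝 (cu (γ S) / 2 * (cosh (cw (γ S)) + 1))) :=
        (ec_fin_cont (X0 := γ S) 1).tendsto.comp h1
      have h3 : cu (γ S) / 2 * (cosh (cw (γ S)) + 1) = 0 := by
        rw [hend, h]; ring
      rw [h3] at h2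
      refine h2.congr' ?_
      filter_upwards [hIio] with t htt
      obtain ⟨hs, -, -⟩ := hσ1 t htt
      change _ = qq 2 (γ (σ t)) - qq 0 (γ (σ t))
      rw [ec_fin_sub0 (by rw [hce _ (hmemI _ hs)]; exact he.le)]
  refine ⟨Ω, q, v, hΩ0, ?_, hlim0, hlimS, ?_⟩
  · intro t h1 h2
    have htt : t ∈ Ioo 0 Ω := ⟨h1, h2⟩
    obtain ⟨hs, -, -⟩ := hσ1 t htt
    exact ⟨fun a b hab => qq_ne (hu _ (hmemI _ hs)) (hJ _ hs).ne'
      (by rw [hce _ (hmemI _ hs)]; exact he.le) a b hab,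
      fun a => ⟨hd1 t htt a, hd2 t htt a⟩⟩
  · -- the eclipses
    have hmem : ∀ i, τ i ∈ Ioo 0 S := fun i => ⟨(hτin i).1, (hτin i).2⟩
    refine ⟨fun i => ct (γ (τ (Fin.cast hlen.symm i))), ?_, ?_, ?_, ?_, ?_, ?_⟩
    · intro i j hij
      apply htm (hmemI _ (hmem _)) (hmemI _ (hmem _))
      apply hτm
      exact hij
    · intro i
      exact (hσ2 _ (hmem (Fin.cast hlen.symm i))).1
    · intro t h1 h2 hcol
      have htt : t ∈ Ioo 0 Ω := ⟨h1, h2⟩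
      obtain ⟨hs, hts, -⟩ := hσ1 t htt
      have h3 := (col_iff (hu _ (hmemI _ hs)) (by rw [hce _ (hmemI _ hs)]; exact he.le)).1 hcol
      obtain ⟨i, hi⟩ := hτall _ hs.1 hs.2 h3
      refine ⟨Fin.cast hlen i, ?_⟩
      change ct (γ (τ (Fin.cast hlen.symm (Fin.cast hlen i)))) = t
      rw [show Fin.cast hlen.symm (Fin.cast hlen i) = i from rfl, hi]
      exact hts
    · intro i
      set j := Fin.cast hlen.symm i with hj
      have hjm := hmem j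
      have hσj := (hσ2 _ hjm).2
      change Collinear ℝ ({qq 0 (γ (σ (ct (γ (τ j))))), qq 1 (γ (σ (ct (γ (τ j))))),
        qq 2 (γ (σ (ct (γ (τ j)))))} : Set ℂ)
      rw [hσj]
      exact (col_iff (hu _ (hmemI _ hjm)) (by rw [hce _ (hmemI _ hjm)]; exact he.le)).2 (hτend j).1
    · intro i b c hb hc hbc
      set j := Fin.cast hlen.symm i with hj
      have hjm := hmem j
      have hσj := (hσ2 _ hjm).2
      have hget : r.get j = code i (w.get i) := by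
        rw [List.get_eq_getElem]
        simp only [hr, List.getElem_ofFn]
        rfl
      obtain ⟨him, -, hL⟩ := hτend j
      rw [hget] at hL
      change Sbtw ℝ (qq b (γ (σ (ct (γ (τ j)))))) (qq (w.get i) (γ (σ (ct (γ (τ j))))))
        (qq c (γ (σ (ct (γ (τ j))))))
      rw [hσj]
      exact sbtw_of_letter (hu _ (hmemI _ hjm)) (by rw [hce _ (hmemI _ hjm)]; exact he.le) him hL
        b c hb hc hbc
    · intro i
      set j := Fin.cast hlen.symm i with hj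
      have hjm := hmem j
      have hjI := hmemI _ hjm
      have hσj := (hσ2 _ hjm).2
      have htj := (hσ2 _ hjm).1
      obtain ⟨him, hdz, -⟩ := hτend j
      have hσd := (hσ1 _ htj).2.2
      rw [hσj] at hσd
      change ∃ d : ℝ, d ≠ 0 ∧ HasDerivAt (area2 q) d (ct (γ (τ j)))
      set t₁ := ct (γ (τ j)) with ht₁
      have hJs := (hJ _ hjm).ne'
      -- the function `s ↦ |u|²/2 * Im Zt`
      have hns : ∃ n' : ℝ, HasDerivAt (fun s => normSq (cu (γ s)) / 2) n' (τ j) := by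
        have hu' := (sol_comp hsol hjI).1
        have hre := Complex.reCLM.hasFDerivAt.comp_hasDerivAt (τ j) hu'
        have him' := Complex.imCLM.hasFDerivAt.comp_hasDerivAt (τ j) hu'
        have h5 := ((hre.mul hre).add (him'.mul him')).div_const 2
        refine ⟨_, h5.congr_of_eventuallyEq ?_⟩
        filter_upwards with s
        simp [Complex.normSq_apply]
      obtain ⟨n', hn'⟩ := hns
      have hz' := (sol_Zt hsol hjI).2
      have hprod := hn'.mul hz'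
      have hσd' : HasDerivAt σ (cJ (γ (τ j)))⁻¹ t₁ := hσd
      have hprod2 : HasDerivAt (fun s => normSq (cu (γ s)) / 2 * (Zt (γ s)).im)
          (n' * (Zt (γ (τ j))).im + normSq (cu (γ (τ j))) / 2 * (dZ (γ (τ j))).im) (σ t₁) := by
        rw [hσj]; exact hprod
      have hcomp := hprod2.scomp t₁ hσd'
      refine ⟨_, ?_, HasDerivAt.congr_of_eventuallyEq hcomp ?_⟩
      · rw [him, mul_zero, zero_add, smul_eq_mul]
        have h1 : 0 < normSq (cu (γ (τ j))) := normSq_pos.mpr (hu _ hjI)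
        have h2 : (cJ (γ (τ j)))⁻¹ ≠ 0 := inv_ne_zero hJs
        exact mul_ne_zero h2 (mul_ne_zero (by positivity) hdz)
      · filter_upwards [isOpen_Ioo.mem_nhds htj] with t' ht'
        obtain ⟨hs', -, -⟩ := hσ1 t' ht'
        have hce' : 0 ≤ ce (γ (σ t')) := by rw [hce _ (hmemI _ hs')]; exact he.le
        change ((starRingEnd ℂ) (qq 1 (γ (σ t')) - qq 0 (γ (σ t'))) *
          (qq 2 (γ (σ t')) - qq 0 (γ (σ t')))).im = _
        rw [area2_eq hce']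
        rfl

end Pool.Agent.EclOwn
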